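import Pool.Agent.H37.CND.Stmts

/-!
# Row ELG of the board `cnd`
-/

set_option autoImplicit false

namespace Pool.CND

theorem elg_mod {V : Type} [AddCommGroup V] (p : ℕ) [Fact p.Prime] [Module (ZMod p) V] (g : V)
    (hg : g ≠ 0) : ∃ f : V →+ ZMod p, Function.Surjective f ∧ f g ≠ 0 := by
  obtain ⟨f, hf⟩ : ∃ f : V →ₗ[ZMod p] ZMod p, f g ≠ 0 := by
    by_contra hcon
    push Not at hcon
    exact hg ((Module.forall_dual_apply_eq_zero_iff (ZMod p) g).mp hcon)
  refine ⟨f.toAddMonoidHom, ?_, hf⟩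
  intro y
  refine ⟨(y / f g) • g, ?_⟩
  change f ((y / f g) • g) = y
  rw [map_smul, smul_eq_mul, div_mul_cancel₀ _ hf]

theorem elg_add {V : Type} [AddCommGroup V] (p : ℕ) [Fact p.Prime] (h : ∀ x : V, p • x = 0) (g : V)
    (hg : g ≠ 0) : ∃ f : V →+ ZMod p, Function.Surjective f ∧ f g ≠ 0 :=
  @elg_mod V _ p _ (AddCommGroup.zmodModule h) g hg

theorem elg_comm {B : Type} [CommGroup B] (p : ℕ) [Fact p.Prime] (h : ∀ x : B, x ^ p = 1) (g : B)
    (hg : g ≠ 1) : ∃ N : Subgroup B, g ∉ N ∧ Nat.card B = p * Nat.card N := by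
  obtain ⟨f, hs, hf⟩ := elg_add (V := Additive B) p (fun x => h x.toMul) (Additive.ofMul g) hg
  let φ : B →* Multiplicative (ZMod p) :=
    { toFun := fun x => Multiplicative.ofAdd (f (Additive.ofMul x))
      map_one' := by
        rw [ofMul_one, map_zero, ofAdd_zero]
      map_mul' := fun x y => by
        rw [ofMul_mul, map_add, ofAdd_add] }
  have hsurj : Function.Surjective φ := by
    intro y
    obtain ⟨x, hx⟩ := hs y.toAdd
    exact ⟨x.toMul, congrArg Multiplicative.ofAdd hx⟩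
  refine ⟨φ.ker, ?_, ?_⟩
  · intro hx
    apply hf
    have h1 : φ g = 1 := hx
    exact congrArg Multiplicative.toAdd h1
  · have h1 := φ.ker.card_mul_index
    rw [Subgroup.index_ker, MonoidHom.range_eq_top.mpr hsurj, Subgroup.card_top] at h1
    have h3 : Nat.card (Multiplicative (ZMod p)) = p := by
      rw [Nat.card_congr Multiplicative.toAdd, Nat.card_zmod]
    rw [← h1, h3, mul_comm]

theorem elg_thm : S_ELG := by
  intro p G _ _ A hp hEA g hg hg1
  have : Fact p.Prime := ⟨hp⟩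
  let cg : CommGroup A :=
    { (inferInstance : Group A) with
      mul_comm := fun x y => Subtype.ext (hEA.2 x.1 x.2 y.1 y.2) }
  obtain ⟨N, hN, hc⟩ := @elg_comm A cg p _ (fun x => Subtype.ext (hEA.1 x.1 x.2)) ⟨g, hg⟩
    (fun h => hg1 (congrArg Subtype.val h))
  refine ⟨N.map A.subtype, Subgroup.map_subtype_le _, ?_, ?_⟩
  · rintro ⟨x, hx, hxg⟩
    apply hN
    have hx' : x = ⟨g, hg⟩ := Subtype.ext hxg
    rw [← hx']
    exact hx
  · have h2 : Nat.card (N.map A.subtype) = Nat.card N :=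
      Subgroup.card_map_of_injective A.subtype_injective
    rw [h2, ← hc]

end Pool.CND
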